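import Pool.Agent.H58.JP12

/-!
# The shortest-vector ratios along Jacobi-Perron convergents diverge almost everywhere

For Lebesgue almost every pair in the open unit square, the pair is admissible and the sequence
`s_i = f(q_i, p_i, r_i)` has no limit.
-/

namespace Pool.Agent.Results.MP_41ff88_co.NoLimit

open MeasureTheory Set Filter Topology Pool.Agent.H58.JP

theorem result : ∀ᵐ z : ℝ × ℝ ∂(volume.restrict (Ioo (0 : ℝ) 1 ×ˢ Ioo (0 : ℝ) 1)),
    Admissible z ∧ ¬ ∃ L : ℝ, Tendsto (fun i => f (convQ z i) (convP z i) (convR z i)) atTop (𝓝 L) :=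
  ae_no_limit

end Pool.Agent.Results.MP_41ff88_co.NoLimit
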